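import Mathlib
import Pool.Agent.N990.PT.Stm

/-!
# PT/DIF: the ends agree at infinity
-/

set_option autoImplicit false

open MeasureTheory Filter
open scoped ENNReal Topology
open Pool.Agent.N988.EA

namespace Pool.Agent.N395.PT

open Pool.Agent.N990.PT

theorem rec_lim (u E : ℕ → ℝ) (hu0 : ∀ n, 0 ≤ u n) (hu1 : ∀ n, u n ≤ 1) (hE0 : ∀ n, 0 ≤ E n)
    (hE : Antitone E) (hE1 : Tendsto E atTop (𝓝 0))
    (h : ∀ n, u n ≤ E n + (1 / 2 + E n) * u (n + 1)) : Tendsto u atTop (𝓝 0) := by
  obtain ⟨N, hN⟩ := eventually_atTop.1 (hE1.eventually_le_const (show (0 : ℝ) < 1 / 4 by norm_num))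
  have key : ∀ m : ℕ, ∀ n, N ≤ n → u n ≤ 4 * E n + (3 / 4) ^ m := by
    intro m
    induction m with
    | zero =>
      intro n _
      have := hu1 n
      have := hE0 n
      rw [pow_zero]
      linarith
    | succ m ih =>
      intro n hn
      have h1 := ih (n + 1) (by omega)
      have h2 := h n
      have h3 := hN n hn
      have h4 := hu0 (n + 1)
      have h5 : E (n + 1) ≤ E n := hE (Nat.le_succ n)
      have h6 : (1 / 2 + E n) * u (n + 1) ≤ 3 / 4 * u (n + 1) :=
        mul_le_mul_of_nonneg_right (by linarith) h4
      rw [pow_succ]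
      linarith
  have lim : ∀ n, N ≤ n → u n ≤ 4 * E n := by
    intro n hn
    have h1 : Tendsto (fun m : ℕ => 4 * E n + (3 / 4 : ℝ) ^ m) atTop (𝓝 (4 * E n + 0)) :=
      (tendsto_pow_atTop_nhds_zero_of_lt_one (by norm_num) (by norm_num)).const_add _
    rw [add_zero] at h1
    exact ge_of_tendsto' h1 fun m => key m n hn
  have h4 : Tendsto (fun n => 4 * E n) atTop (𝓝 0) := by
    have := hE1.const_mul 4
    rwa [mul_zero] at this
  refine tendsto_of_tendsto_of_tendsto_of_le_of_le' tendsto_const_nhds h4
    (Eventually.of_forall hu0) ?_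
  filter_upwards [eventually_ge_atTop N] with n hn using lim n hn

/-- the weight of the spins of the ends being different -/
noncomputable def ff {q : ℕ} (τ : Bool → Fin q) : ℝ := if τ false = τ true then 0 else 1

theorem mw_eq {q : ℕ} (K : ℝ) (τ : Bool → Fin q) (s : Bool) (h : τ false = τ true) :
    ∑ c, mw K τ c * ff (fun t => if t = s then τ t else c) ≤ q * Real.exp (-(2 * K)) := by
  have hs : ∀ s', τ s' = τ s := by
    intro s'
    cases s <;> cases s' <;> simp [h]
  have hD : Real.exp (2 * K) ≤
      ∑ a : Fin q, Real.exp (K * ((if a = τ false then 1 else 0) + if a = τ true then 1 else 0)) := by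
    have h1 := Finset.single_le_sum (f := fun a : Fin q =>
      Real.exp (K * ((if a = τ false then 1 else 0) + if a = τ true then 1 else 0)))
      (fun i _ => (Real.exp_pos _).le) (Finset.mem_univ (τ s))
    refine le_trans (le_of_eq ?_) h1
    simp only [hs false, hs true, if_true]
    congr 1
    ring
  have hc : ∀ c ∈ (Finset.univ : Finset (Fin q)),
      mw K τ c * ff (fun t => if t = s then τ t else c) ≤ Real.exp (-(2 * K)) := by
    intro c _
    by_cases hcs : c = τ s
    · have h0 : ff (fun t => if t = s then τ t else c) = 0 := by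
        unfold ff
        cases s <;> simp [hcs]
      rw [h0, mul_zero]
      exact (Real.exp_pos _).le
    · have h0 : ff (fun t => if t = s then τ t else c) ≤ 1 := by
        unfold ff
        split_ifs <;> norm_num
      have h2 : mw K τ c ≤ Real.exp (-(2 * K)) := by
        unfold mw
        rw [hs false, hs true]
        rw [hs false, hs true] at hD
        rw [if_neg hcs, add_zero, mul_zero, Real.exp_zero, Real.exp_neg, ← one_div]
        exact one_div_le_one_div_of_le (Real.exp_pos _) hD
      have h3 : 0 ≤ mw K τ c := by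
        unfold mw
        positivity
      calc mw K τ c * ff (fun t => if t = s then τ t else c) ≤ mw K τ c * 1 :=
            mul_le_mul_of_nonneg_left h0 h3
        _ ≤ Real.exp (-(2 * K)) := by rw [mul_one]; exact h2
  refine (Finset.sum_le_sum hc).trans (le_of_eq ?_)
  rw [Finset.sum_const, Finset.card_univ, Fintype.card_fin, nsmul_eq_mul]

theorem mw_ne {q : ℕ} (K : ℝ) (τ : Bool → Fin q) (s : Bool) (h : τ false ≠ τ true) :
    ∑ c, mw K τ c * ff (fun t => if t = s then τ t else c) ≤ 1 / 2 + q * Real.exp (-K) := by
  set D := ∑ a : Fin q, Real.exp (K * ((if a = τ false then 1 else 0) + if a = τ true then 1 else 0))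
    with hDdef
  have hD : 2 * Real.exp K ≤ D := by
    have h1 : ∑ a ∈ ({τ false, τ true} : Finset (Fin q)),
        Real.exp (K * ((if a = τ false then 1 else 0) + if a = τ true then 1 else 0)) ≤ D :=
      Finset.sum_le_sum_of_subset_of_nonneg (Finset.subset_univ _) fun i _ _ => (Real.exp_pos _).le
    rw [Finset.sum_pair h] at h1
    simp only [if_true, if_neg h, if_neg h.symm, add_zero, zero_add, mul_one] at h1
    linarith
  have hD0 : 0 < D := lt_of_lt_of_le (by positivity) hD
  have hc : ∀ c ∈ (Finset.univ : Finset (Fin q)),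
      mw K τ c * ff (fun t => if t = s then τ t else c) ≤
        (if c = τ (!s) then 1 / 2 else 0) + Real.exp (-K) := by
    intro c _
    have h3 : 0 ≤ mw K τ c := by
      unfold mw
      positivity
    by_cases hcs : c = τ s
    · have h0 : ff (fun t => if t = s then τ t else c) = 0 := by
        unfold ff
        cases s <;> simp [hcs]
      rw [h0, mul_zero]
      have := (Real.exp_pos (-K)).le
      split_ifs <;> linarith
    · have h0 : ff (fun t => if t = s then τ t else c) ≤ 1 := by
        unfold ff
        split_ifs <;> norm_num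
      refine (mul_le_mul_of_nonneg_left h0 h3).trans ?_
      rw [mul_one]
      by_cases hcs' : c = τ (!s)
      · rw [if_pos hcs']
        have e : mw K τ c = Real.exp K / D := by
          unfold mw
          rw [← hDdef]
          congr 2
          cases s
          · simp only [Bool.not_false] at hcs'
            rw [hcs', if_neg h.symm, if_pos rfl]
            ring
          · simp only [Bool.not_true] at hcs'
            rw [hcs', if_neg h, if_pos rfl]
            ring
        rw [e]
        have h5 : Real.exp K / D ≤ 1 / 2 := by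
          rw [div_le_div_iff₀ hD0 (by norm_num)]
          linarith
        have := (Real.exp_pos (-K)).le
        linarith
      · rw [if_neg hcs', zero_add]
        have e : mw K τ c = 1 / D := by
          unfold mw
          rw [← hDdef]
          congr 1
          cases s
          · simp only [Bool.not_false] at hcs'
            rw [if_neg hcs, if_neg hcs', add_zero, mul_zero, Real.exp_zero]
          · simp only [Bool.not_true] at hcs'
            rw [if_neg hcs, if_neg hcs', add_zero, mul_zero, Real.exp_zero]
        rw [e, Real.exp_neg, ← one_div]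
        refine one_div_le_one_div_of_le (Real.exp_pos _) ?_
        have := Real.exp_pos K
        linarith
  refine (Finset.sum_le_sum hc).trans (le_of_eq ?_)
  rw [Finset.sum_add_distrib, Finset.sum_const, Finset.card_univ, Fintype.card_fin, nsmul_eq_mul,
    Finset.sum_ite_eq' Finset.univ (τ (!s)) (fun _ => (1 / 2 : ℝ)), if_pos (Finset.mem_univ _)]

theorem meas_ends {b q : ℕ} (p : ℕ → Fin b × Bool) (n : ℕ) :
    Measurable (ends p n : (VInf p → Fin q) → Bool → Fin q) :=
  measurable_pi_lambda _ fun _ => measurable_pi_apply _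

theorem int_ends {b q : ℕ} (p : ℕ → Fin b × Bool) (n : ℕ) (μ : Measure (VInf p → Fin q))
    [IsProbabilityMeasure μ] (F : (Bool → Fin q) → ℝ) : Integrable (fun ω => F (ends p n ω)) μ := by
  refine Integrable.of_bound ?_ (∑ τ, |F τ|) (Eventually.of_forall fun ω => ?_)
  · exact ((Measurable.of_discrete (f := F)).comp (meas_ends p n)).aestronglyMeasurable
  · rw [Real.norm_eq_abs]
    exact Finset.single_le_sum (f := fun τ => |F τ|) (fun i _ => abs_nonneg _) (Finset.mem_univ _)

theorem t_dif (h1 : Pool.Agent.N990.PT.S_TOP) (_h2 : Pool.Agent.N990.PT.S_GEO) :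
    Pool.Agent.N990.PT.S_DIF := by
  intro b q hq β p hK μ hμ
  obtain ⟨C, hC⟩ := hK
  have := hμ.prob
  have hu : ∀ n, μ.real {ω | ends p n ω false ≠ ends p n ω true} = ∫ ω, ff (ends p n ω) ∂μ := by
    intro n
    have hm : MeasurableSet {ω : VInf p → Fin q | ends p n ω false ≠ ends p n ω true} := by
      have : MeasurableSet {τ : Bool → Fin q | τ false ≠ τ true} := MeasurableSet.of_discrete
      exact meas_ends p n this
    rw [← integral_indicator_one hm]
    refine integral_congr_ae (Eventually.of_forall fun ω => ?_)
    simp only [Set.indicator_apply, Set.mem_ofPred_eq, Pi.one_apply, ff]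
    by_cases h : ends p n ω false = ends p n ω true
    · rw [if_neg (fun h' => h' h), if_pos h]
    · rw [if_pos h, if_neg h]
  simp only [hu]
  have hq0 : (0 : ℝ) ≤ q := Nat.cast_nonneg q
  refine rec_lim _ (fun n => q * (Real.exp (C - n) + Real.exp (2 * (C - n)))) (fun n => ?_)
    (fun n => ?_) (fun n => by positivity) ?_ ?_ (fun n => ?_)
  · rw [← hu]
    exact measureReal_nonneg
  · rw [← hu]
    exact measureReal_le_one
  · intro m n hmn
    have h3 : (m : ℝ) ≤ n := by exact_mod_cast hmn
    have h4 : Real.exp (C - n) ≤ Real.exp (C - m) := Real.exp_le_exp.2 (by linarith)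
    have h5 : Real.exp (2 * (C - n)) ≤ Real.exp (2 * (C - m)) := Real.exp_le_exp.2 (by linarith)
    exact mul_le_mul_of_nonneg_left (by linarith) hq0
  · have t0 : Tendsto (fun n : ℕ => C - (n : ℝ)) atTop atBot := by
      have : Tendsto (fun n : ℕ => -(n : ℝ) + C) atTop atBot :=
        tendsto_atBot_add_const_right _ _ (tendsto_neg_atTop_atBot.comp tendsto_natCast_atTop_atTop)
      refine this.congr fun n => ?_
      ring
    have t1 : Tendsto (fun n : ℕ => Real.exp (C - n)) atTop (𝓝 0) :=
      Real.tendsto_exp_atBot.comp t0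
    have t2 : Tendsto (fun n : ℕ => Real.exp (2 * (C - n))) atTop (𝓝 0) :=
      Real.tendsto_exp_atBot.comp (t0.const_mul_atBot (by norm_num))
    have t3 := (t1.add t2).const_mul (q : ℝ)
    rw [add_zero, mul_zero] at t3
    exact t3
  · have e := h1 b q hq β p μ hμ n ff
    rw [e]
    have i1 := int_ends p (n + 1) μ (ff : (Bool → Fin q) → ℝ)
    have i2 : Integrable (fun ω => q * (Real.exp (C - n) + Real.exp (2 * (C - n))) +
        (1 / 2 + q * (Real.exp (C - n) + Real.exp (2 * (C - n)))) * ff (ends p (n + 1) ω)) μ :=
      (integrable_const _).add (i1.const_mul _)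
    have i3 := int_ends p (n + 1) μ (fun τ : Bool → Fin q =>
      ∑ c, mw (Kf b q β n) τ c * ff (fun t => if t = (p n).2 then τ t else c))
    refine (integral_mono i3 i2 fun ω => ?_).trans (le_of_eq ?_)
    · have k1 : Real.exp (-(Kf b q β n)) ≤ Real.exp (C - n) :=
        Real.exp_le_exp.2 (by have := hC n; linarith)
      have k2 : Real.exp (-(2 * Kf b q β n)) ≤ Real.exp (2 * (C - n)) :=
        Real.exp_le_exp.2 (by have := hC n; linarith)
      have k1' := mul_le_mul_of_nonneg_left k1 hq0
      have k2' := mul_le_mul_of_nonneg_left k2 hq0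
      have p1 : 0 ≤ (q : ℝ) * Real.exp (C - n) := by positivity
      have p2 : 0 ≤ (q : ℝ) * Real.exp (2 * (C - n)) := by positivity
      simp only
      by_cases h : ends p (n + 1) ω false = ends p (n + 1) ω true
      · have h3 := mw_eq (Kf b q β n) (ends p (n + 1) ω) (p n).2 h
        have h4 : ff (ends p (n + 1) ω) = 0 := by unfold ff; rw [if_pos h]
        rw [h4]
        linarith
      · have h3 := mw_ne (Kf b q β n) (ends p (n + 1) ω) (p n).2 h
        have h4 : ff (ends p (n + 1) ω) = 1 := by unfold ff; rw [if_neg h]
        rw [h4]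
        linarith
    · rw [integral_add (integrable_const _) (i1.const_mul _), integral_const, integral_const_mul,
        probReal_univ, one_smul]

end Pool.Agent.N395.PT
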